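import Mathlib
import Pool.Graph.R_seed8.TH501.Hemi.Core

set_option autoImplicit false
set_option linter.unusedSectionVars false

namespace Pool.Agent.KS6_36.HemiGroup

open Finset Classical Pool.Agent.TH501.Hemi

variable {K : Type} [Field K] [Fintype K] {q : ℕ}

lemma T3_map (φ : K ≃+* K) (x : K) : φ (T3 q x) = T3 q (φ x) := by
  unfold T3
  simp only [map_add, map_pow]

lemma N3_map (φ : K ≃+* K) (x : K) : φ (N3 q x) = N3 q (φ x) := by
  unfold N3
  simp only [map_mul, map_pow]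

lemma eta_map (φ : K ≃+* K) (a : K) : eta q (φ a) = eta q a := by
  unfold eta
  have h1 : φ a = 0 ↔ a = 0 := by simp
  have h2 : (φ a) ^ ((q - 1) / 2) = 1 ↔ a ^ ((q - 1) / 2) = 1 := by
    rw [← map_pow]
    constructor
    · intro h
      apply φ.injective
      rw [h, map_one]
    · intro h
      rw [h, map_one]
  simp only [h1, h2]

lemma chi2_map (φ : K ≃+* K) (a : K) : chi2 q (φ a) = chi2 q a := by
  unfold chi2
  have h2 : (φ a) ^ ((q ^ 3 + 1) / 2) = 1 ↔ a ^ ((q ^ 3 + 1) / 2) = 1 := by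
    rw [← map_pow]
    constructor
    · intro h
      apply φ.injective
      rw [h, map_one]
    · intro h
      rw [h, map_one]
  simp only [h2]

lemma Fs_map (φ : K ≃+* K) (S : K) : Fs q (φ S) = Fs q S := by
  unfold Fs
  rw [chi2_map, ← N3_map, ← map_inv₀, ← map_add, eta_map]

lemma uS_map (φ : K ≃+* K) {th : K} (hth : φ th = th) (S lam e : K) :
    φ (uS q th S lam e) = uS q th (φ S) (φ lam) (φ e) := by
  unfold uS Yp
  simp only [map_div₀, map_mul, map_add, map_sub, map_pow, hth, N3_map, map_ofNat]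

lemma mu_map (φ : K ≃+* K) {S : K} (hS : S ∈ mu K q) : φ S ∈ mu K q := by
  unfold mu at hS ⊢
  rw [mem_filter] at hS ⊢
  exact ⟨mem_univ _, by rw [← map_pow, hS.2, map_one]⟩

lemma InC_map (φ : K ≃+* K) {th : K} (hth : φ th = th) {S x : K} (hx : InC q th S x) :
    InC q th (φ S) (φ x) := by
  obtain ⟨lam, e, h1, h2, h3, h4, h5, h6⟩ := hx
  refine ⟨φ lam, φ e, (map_ne_zero φ).2 h1, ?_, (map_ne_zero φ).2 h3, ?_, ?_, ?_⟩
  · rw [← map_pow, h2, map_mul, map_pow, N3_map]
  · rw [← map_pow, h4]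
  · rw [← T3_map, h5, map_zero]
  · rw [h6, uS_map φ hth]

lemma corF_map {th : K} (H : CorH K q th) (φ : K ≃+* K) (hth : φ th = th) (x : K) :
    corF q th (φ x) = corF q th x := by
  by_cases hex : ∃ S : K, S ∈ mu K q ∧ InC q th S x
  · obtain ⟨S, hS, hx⟩ := hex
    rw [corF_eq H hS hx, corF_eq H (mu_map φ hS) (InC_map φ hth hx), Fs_map]
  · rw [corF_none hex, corF_none]
    rintro ⟨S, hS, hx⟩
    apply hex
    have hth' : φ.symm th = th := by
      apply φ.injective
      rw [φ.apply_symm_apply, hth]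
    refine ⟨φ.symm S, mu_map φ.symm hS, ?_⟩
    have := InC_map φ.symm hth' hx
    rwa [φ.symm_apply_apply] at this

/-- The core with its full symmetry. -/
theorem core2 (h : Std K q) : ∃ (th : K) (f : K → ℤ), th ^ 2 = 3 ∧ (∀ x, f x = 1 ∨ f x = -1) ∧
    (∀ c x : K, c ≠ 0 → c ^ q = c → f (c * x) = f x) ∧
    (∀ c x : K, c ^ (q ^ 2 - q + 1) = 1 → f (c * x) = f x) ∧
    (∀ u v : K, IsLine q u v → lsum q f u v = 0) ∧
    (∀ φ : K ≃+* K, φ th = th → ∀ x, f (φ x) = f x) := by
  obtain ⟨th, hth, hth'⟩ := th_exists h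
  have H := corH h hth hth'
  exact ⟨th, corF q th, hth, corF_pm H, fun _ x hc0 hc => corF_smul h H hc0 hc x,
    fun _ x hc => corF_rot h H hc x, fun _ _ hl => cor_line h H hl,
    fun φ hφ x => corF_map H φ hφ x⟩

end Pool.Agent.KS6_36.HemiGroup
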