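import Mathlib
import Pool.Agent.KS6_36.HemiGroup.Frob
import Pool.Graph.R_seed8.TH501.Hemi.Geometry

set_option autoImplicit false
set_option linter.unusedSectionVars false

namespace Pool.Agent.KS6_36.HemiGroup

open Finset Classical Pool.Agent.TH501.Hemi

section grp

variable {F K : Type} [Field F] [Fintype F] [Field K] [Fintype K] [Algebra F K] {q : ℕ}
variable (p s : ℕ) [Fact p.Prime] [CharP F p] [CharP K p]

/-- `(Y, P) ↦ (Y^(p^(s k)), u P^(p^(s k)))`. -/
noncomputable def A (F : Type) {K : Type} [Field F] [Fintype F] [Field K] [Fintype K]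
    (p s : ℕ) [Fact p.Prime] [CharP F p] [CharP K p] (u : Kˣ) (k : ℕ) : (F × K) ≃ (F × K) :=
  Equiv.prodCongr (iterateFrobeniusEquiv F p (s * k)).toEquiv
    ((iterateFrobeniusEquiv K p (s * k)).toEquiv.trans (Units.mulLeft u))

lemma A_apply (u : Kˣ) (k : ℕ) (v : F × K) :
    A F p s u k v = (v.1 ^ p ^ (s * k), u * v.2 ^ p ^ (s * k)) := rfl

/-- the transported map -/
noncomputable def E (e : (Fin 4 → F) ≃ₗ[F] F × K) (u : Kˣ) (k : ℕ) : Equiv.Perm (Fin 4 → F) :=
  (e.toEquiv.trans (A F p s u k)).trans e.symm.toEquiv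

lemma E_apply (e : (Fin 4 → F) ≃ₗ[F] F × K) (u : Kˣ) (k : ℕ) (v : Fin 4 → F) :
    e (E p s e u k v) = ((e v).1 ^ p ^ (s * k), u * (e v).2 ^ p ^ (s * k)) := by
  show e (e.symm (A F p s u k (e v))) = _
  rw [e.apply_symm_apply, A_apply]

lemma E_ext (e : (Fin 4 → F) ≃ₗ[F] F × K) (u : Kˣ) (k : ℕ) (g : Equiv.Perm (Fin 4 → F))
    (h : ∀ v, e (g v) = ((e v).1 ^ p ^ (s * k), u * (e v).2 ^ p ^ (s * k))) :
    g = E p s e u k := by
  apply Equiv.ext
  intro v
  apply e.injective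
  rw [h, E_apply]

lemma E_mul (e : (Fin 4 → F) ≃ₗ[F] F × K) (u w : Kˣ) (k l : ℕ) :
    E p s e u k * E p s e w l = E p s e (u * w ^ p ^ (s * k)) (k + l) := by
  apply E_ext
  intro v
  rw [Equiv.Perm.mul_apply, E_apply, E_apply]
  ext
  · show ((e v).1 ^ p ^ (s * l)) ^ p ^ (s * k) = _
    rw [← pow_mul, ← pow_add]
    congr 2
    ring
  · show (u : K) * ((w : K) * (e v).2 ^ p ^ (s * l)) ^ p ^ (s * k) = _
    rw [mul_pow, ← pow_mul, ← pow_add, Units.val_mul, Units.val_pow_eq_pow_val]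
    have : s * l + s * k = s * (k + l) := by ring
    rw [this]
    ring

lemma E_zero_one (e : (Fin 4 → F) ≃ₗ[F] F × K) : E p s e (1 : Kˣ) 0 = 1 := by
  symm
  apply E_ext
  intro v
  simp

/-- The homomorphism `u ↦ E u 0`. -/
noncomputable def EH (e : (Fin 4 → F) ≃ₗ[F] F × K) : Kˣ →* Equiv.Perm (Fin 4 → F) where
  toFun u := E p s e u 0
  map_one' := E_zero_one p s e
  map_mul' u w := by
    rw [E_mul]
    simp

lemma E_inj_unit (e : (Fin 4 → F) ≃ₗ[F] F × K) {u w : Kˣ} {k l : ℕ}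
    (h : E p s e u k = E p s e w l) : u = w ∧ ∀ x : K, x ^ p ^ (s * k) = x ^ p ^ (s * l) := by
  have h1 : ∀ x : K, (u : K) * x ^ p ^ (s * k) = w * x ^ p ^ (s * l) := by
    intro x
    have h2 := congrArg (fun g : Equiv.Perm (Fin 4 → F) => (e (g (e.symm (0, x)))).2) h
    simp only [E_apply, e.apply_symm_apply] at h2
    exact h2
  have h3 : u = w := by
    apply Units.ext
    have := h1 1
    simpa using this
  refine ⟨h3, fun x => ?_⟩
  have := h1 x
  rw [h3] at this
  exact mul_left_cancel₀ (Units.ne_zero w) this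

/-- the Frobenius of `K` has no smaller period -/
lemma card_le_of_fix {j : ℕ} (hj : 0 < j) (hx : ∀ x : K, x ^ p ^ j = x) :
    Fintype.card K ≤ p ^ j := by
  have hp : 1 < p ^ j := Nat.one_lt_pow (by omega) (Fact.out : p.Prime).one_lt
  set f : Polynomial K := Polynomial.X ^ p ^ j - Polynomial.X with hf
  have hf0 : f ≠ 0 := FiniteField.X_pow_card_sub_X_ne_zero K hp
  have hdeg : f.natDegree = p ^ j := FiniteField.X_pow_card_sub_X_natDegree_eq K hp
  have hsub : (univ : Finset K) ⊆ f.roots.toFinset := by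
    intro y _
    rw [Multiset.mem_toFinset, Polynomial.mem_roots hf0, Polynomial.IsRoot.def, hf,
      Polynomial.eval_sub, Polynomial.eval_pow, Polynomial.eval_X, hx, sub_self]
  have h1 := Finset.card_le_card hsub
  rw [Finset.card_univ] at h1
  exact h1.trans ((Multiset.toFinset_card_le _).trans ((Polynomial.card_roots' f).trans hdeg.le))

variable {m : ℕ}

lemma fixK (hK : Fintype.card K = p ^ (s * m)) (k : ℕ) (x : K) : x ^ p ^ (s * (m * k)) = x := by
  rw [← mul_assoc, pow_mul, ← hK]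
  exact FiniteField.pow_card_pow k x

lemma E_congr (e : (Fin 4 → F) ≃ₗ[F] F × K) {u : Kˣ} {k l : ℕ}
    (hF : ∀ a : F, a ^ p ^ (s * k) = a ^ p ^ (s * l))
    (hK : ∀ x : K, x ^ p ^ (s * k) = x ^ p ^ (s * l)) : E p s e u k = E p s e u l := by
  apply E_ext
  intro v
  rw [E_apply, hF, hK]

/-- The group. -/
noncomputable def G (e : (Fin 4 → F) ≃ₗ[F] F × K) (N : ℕ) (hm : 0 < m)
    (hF : ∀ (k : ℕ) (a : F), a ^ p ^ (s * (m * k)) = a)
    (hK : Fintype.card K = p ^ (s * m)) : Subgroup (Equiv.Perm (Fin 4 → F)) where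
  carrier := {g | ∃ (u : Kˣ) (k : ℕ), u ^ N = 1 ∧ g = E p s e u k}
  one_mem' := ⟨1, 0, one_pow _, (E_zero_one p s e).symm⟩
  mul_mem' := by
    rintro _ _ ⟨u, k, hu, rfl⟩ ⟨w, l, hw, rfl⟩
    refine ⟨u * w ^ p ^ (s * k), k + l, ?_, E_mul p s e u w k l⟩
    rw [mul_pow, hu, one_mul, ← pow_mul, mul_comm, pow_mul, hw, one_pow]
  inv_mem' := by
    rintro _ ⟨u, k, hu, rfl⟩
    refine ⟨(u⁻¹) ^ p ^ (s * ((m - 1) * k)), (m - 1) * k, ?_, ?_⟩
    · rw [← pow_mul, mul_comm, pow_mul, inv_pow, hu, inv_one, one_pow]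
    · apply inv_eq_of_mul_eq_one_right
      have hk : k + (m - 1) * k = m * k := by
        obtain ⟨m', rfl⟩ : ∃ m', m = m' + 1 := ⟨m - 1, by omega⟩
        rw [Nat.add_sub_cancel]
        ring
      have hk' : s * ((m - 1) * k) + s * k = s * (m * k) := by
        rw [← hk]
        ring
      rw [E_mul, hk, ← pow_mul, ← pow_add, hk']
      have h1 : (u⁻¹) ^ p ^ (s * (m * k)) = u⁻¹ := by
        apply Units.ext
        rw [Units.val_pow_eq_pow_val]
        exact fixK p s hK k _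
      rw [h1, mul_inv_cancel, ← E_zero_one p s e]
      refine E_congr p s e (fun a => ?_) (fun x => ?_)
      · rw [hF]
        simp
      · rw [fixK p s hK]
        simp

lemma mem_G (e : (Fin 4 → F) ≃ₗ[F] F × K) (N : ℕ) (hm : 0 < m)
    (hF : ∀ (k : ℕ) (a : F), a ^ p ^ (s * (m * k)) = a)
    (hK : Fintype.card K = p ^ (s * m)) (g : Equiv.Perm (Fin 4 → F)) :
    g ∈ G p s e N hm hF hK ↔ ∃ (u : Kˣ) (k : ℕ), u ^ N = 1 ∧ g = E p s e u k := Iff.rfl

lemma card_G (e : (Fin 4 → F) ≃ₗ[F] F × K) (N : ℕ) (hN : 0 < N) (hs : 0 < s) (hm : 0 < m)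
    (hF : ∀ (k : ℕ) (a : F), a ^ p ^ (s * (m * k)) = a)
    (hK : Fintype.card K = p ^ (s * m)) (ζ : Kˣ) (hζ : orderOf ζ = N) :
    Nat.card (G p s e N hm hF hK) = N * m := by
  have : NeZero N := ⟨hN.ne'⟩
  have hprim : IsPrimitiveRoot ζ N := hζ ▸ IsPrimitiveRoot.orderOf ζ
  have h1 : Nat.card (rootsOfUnity N K) = N := IsPrimitiveRoot.card_rootsOfUnity' hprim
  have h2 : Nat.card (rootsOfUnity N K × Fin m) = N * m := by
    rw [Nat.card_prod, h1, Nat.card_fin]
  rw [← h2]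
  symm
  let f : rootsOfUnity N K × Fin m → G p s e N hm hF hK := fun x =>
    ⟨E p s e x.1.1 x.2.1, x.1.1, x.2.1, x.1.2, rfl⟩
  have hred : ∀ (k : ℕ), (∀ a : F, a ^ p ^ (s * k) = a ^ p ^ (s * (k % m))) ∧
      ∀ x : K, x ^ p ^ (s * k) = x ^ p ^ (s * (k % m)) := by
    intro k
    have hk : s * k = s * (m * (k / m)) + s * (k % m) := by
      rw [← mul_add, Nat.div_add_mod]
    constructor
    · intro a
      rw [hk, pow_add, pow_mul, hF]
    · intro x
      rw [hk, pow_add, pow_mul, fixK p s hK]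
  refine Nat.card_congr (Equiv.ofBijective f ⟨?_, ?_⟩)
  · rintro ⟨u, k⟩ ⟨w, l⟩ h
    have h3 : E p s e u.1 k.1 = E p s e w.1 l.1 := congrArg Subtype.val h
    obtain ⟨h4, h5⟩ := E_inj_unit p s e h3
    have key : ∀ k l : ℕ, k < l → l < m →
        ¬ ∀ x : K, x ^ p ^ (s * k) = x ^ p ^ (s * l) := by
      intro k l hkl hl hx
      have h6 : ∀ x : K, x ^ p ^ (s * (l - k)) = x := by
        intro x
        have h7 := hx x
        have h8 : s * l = s * (l - k) + s * k := by
          rw [← mul_add, Nat.sub_add_cancel hkl.le]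
        have h8' : x ^ p ^ (s * l) = (x ^ p ^ (s * (l - k))) ^ p ^ (s * k) := by
          rw [← pow_mul, ← pow_add, ← h8]
        rw [h8'] at h7
        have h9 : iterateFrobenius K p (s * k) x =
            iterateFrobenius K p (s * k) (x ^ p ^ (s * (l - k))) := by
          simp only [iterateFrobenius_def]
          exact h7
        exact ((iterateFrobenius K p (s * k)).injective h9).symm
      have h10 := card_le_of_fix p (K := K) (Nat.mul_pos hs (by omega : 0 < l - k)) h6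
      rw [hK] at h10
      have h11 : p ^ (s * (l - k)) < p ^ (s * m) :=
        Nat.pow_lt_pow_right (Fact.out : p.Prime).one_lt
          (Nat.mul_lt_mul_of_pos_left (by omega) hs)
      omega
    have h6 : k = l := by
      apply Fin.ext
      rcases lt_trichotomy k.1 l.1 with h7 | h7 | h7
      · exact absurd h5 (key _ _ h7 l.2)
      · exact h7
      · exact absurd (fun x => (h5 x).symm) (key _ _ h7 k.2)
    rw [h6, Subtype.ext h4]
  · rintro ⟨g, u, k, hu, rfl⟩
    refine ⟨(⟨u, hu⟩, ⟨k % m, Nat.mod_lt _ hm⟩), ?_⟩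
    apply Subtype.ext
    exact (E_congr p s e (hred k).1 (hred k).2).symm

lemma EH_inj (e : (Fin 4 → F) ≃ₗ[F] F × K) : Function.Injective (EH p s e) := by
  intro u w h
  exact (E_inj_unit p s e h).1

end grp

end Pool.Agent.KS6_36.HemiGroup
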