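import Mathlib
import Pool.Agent.KS6_36.HemiGroup.Grp

set_option autoImplicit false
set_option linter.unusedSectionVars false

namespace Pool.Agent.KS6_36.HemiGroup

open Finset Classical Pool.Agent.TH501.Hemi

/-- A hemisystem of the Hermitian surface `∑ x_i^(q+1) = 0`, as a set of totally isotropic
two-dimensional subspaces. -/
def IsHemisystem {F : Type} [Field F] (q : ℕ) (S : Set (Submodule F (Fin 4 → F))) : Prop :=
  (∀ L ∈ S, Module.finrank F L = 2 ∧ ∀ x ∈ L, ∀ y ∈ L, ∑ i, x i * y i ^ q = 0) ∧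
  ∀ P : Submodule F (Fin 4 → F), Module.finrank F P = 1 → (∀ x ∈ P, ∑ i, x i ^ (q + 1) = 0) →
    Set.ncard {L | L ∈ S ∧ P ≤ L} = (q + 1) / 2

/-- `g` is `τ`-semilinear and preserves the Hermitian form up to `τ`. -/
def IsSemiIsometry {F : Type} [Field F] (q : ℕ) (g : Equiv.Perm (Fin 4 → F)) (τ : F ≃+* F) :
    Prop :=
  (∀ x y, g (x + y) = g x + g y) ∧ (∀ (a : F) (x : Fin 4 → F), g (a • x) = τ a • g x) ∧
  ∀ x y : Fin 4 → F, ∑ i, g x i * g y i ^ q = τ (∑ i, x i * y i ^ q)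

section main

variable {F K : Type} [Field F] [Fintype F] [Field K] [Fintype K] [Algebra F K] {q : ℕ}

/-- the generators in coordinates -/
def GG (h : Std K q) (hF : Fintype.card F = q ^ 2) (e : (Fin 4 → F) ≃ₗ[F] F × K) (x : K) :
    Submodule F (Fin 4 → F) := (gx_G F h hF x).comap e.toLinearMap

/-- the set of lines -/
def SS (h : Std K q) (hF : Fintype.card F = q ^ 2) (e : (Fin 4 → F) ≃ₗ[F] F × K) (f : K → ℤ) :
    Set (Submodule F (Fin 4 → F)) :=
  {L | ∃ x : K, x ≠ 0 ∧ Qf q x = 0 ∧ f x = 1 ∧ L = GG h hF e x}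

theorem hemi_of (h : Std K q) (hF : Fintype.card F = q ^ 2) (f : K → ℤ)
    (hf1 : ∀ x, f x = 1 ∨ f x = -1)
    (hf2 : ∀ c x : K, c ≠ 0 → c ^ q = c → f (c * x) = f x)
    (hf4 : ∀ u v : K, IsLine q u v → lsum q f u v = 0)
    (e : (Fin 4 → F) ≃ₗ[F] F × K)
    (hform : ∀ v w : Fin 4 → F, algebraMap F K (∑ i, v i * w i ^ q) =
      algebraMap F K (e v).1 * (algebraMap F K (e w).1) ^ q + T3 q ((e v).2 * (e w).2 ^ q ^ 3))
    (hself : ∀ v : Fin 4 → F, algebraMap F K (∑ i, v i ^ (q + 1)) =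
      (algebraMap F K (e v).1) ^ (q + 1) + T3 q ((e v).2 * (e v).2 ^ q ^ 3)) :
    IsHemisystem q (SS h hF e f) := by
  have hinj : Function.Injective (algebraMap F K) := (algebraMap F K).injective
  set GG : K → Submodule F (Fin 4 → F) := fun x => (gx_G F h hF x).comap e.toLinearMap with hGG
  have hmem : ∀ x v, v ∈ GG x ↔ e v ∈ gx_G F h hF x := fun x v => Iff.rfl
  have hGGinj : ∀ x y, GG x = GG y → gx_G F h hF x = gx_G F h hF y := by
    intro x y hxy
    ext v
    have := Submodule.ext_iff.1 hxy (e.symm v)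
    rwa [hmem, hmem, LinearEquiv.apply_symm_apply] at this
  set S : Set (Submodule F (Fin 4 → F)) :=
    {L | ∃ x : K, x ≠ 0 ∧ Qf q x = 0 ∧ f x = 1 ∧ L = GG x} with hS
  show IsHemisystem q S
  refine ⟨?_, ?_⟩
  · -- lines, totally isotropic
    rintro L ⟨x, hx0, hxQ, hfx, rfl⟩
    refine ⟨?_, ?_⟩
    · have h1 : GG x = (gx_G F h hF x).map e.symm.toLinearMap := by
        ext v
        rw [hmem, Submodule.mem_map]
        constructor
        · intro hv
          exact ⟨e v, hv, e.symm_apply_apply v⟩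
        · rintro ⟨w, hw, rfl⟩
          rw [LinearEquiv.coe_coe, LinearEquiv.apply_symm_apply]
          exact hw
      rw [h1, LinearEquiv.finrank_map_eq]
      exact gx_finrank h hF hx0 hxQ
    · intro v hv w hw
      rw [hmem, gx_mem_G] at hv hw
      apply hinj
      rw [hform, map_zero]
      exact gen_iso h hx0 hxQ (gx_fix hF _) (gx_fix hF _) hv.1 hv.2 hw.1 hw.2
  · -- the count
    intro P hP1 hP2
    obtain ⟨⟨v, hvP⟩, hv0, hv⟩ := finrank_eq_one_iff'.1 hP1
    have hv0' : v ≠ 0 := fun h0 => hv0 (Subtype.ext h0)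
    have hle : ∀ L : Submodule F (Fin 4 → F), P ≤ L ↔ v ∈ L := by
      intro L
      refine ⟨fun hL => hL hvP, fun hL w hw => ?_⟩
      obtain ⟨a, ha⟩ := hv ⟨w, hw⟩
      have : w = a • v := (congrArg Subtype.val ha).symm
      rw [this]
      exact L.smul_mem a hL
    have hev0 : ¬ (algebraMap F K (e v).1 = 0 ∧ (e v).2 = 0) := by
      rintro ⟨h1, h2⟩
      apply hv0'
      have : e v = 0 := by
        ext
        · exact (map_eq_zero _).1 h1
        · exact h2
      exact (LinearEquiv.map_eq_zero_iff e).1 this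
    obtain ⟨u, w, hl, huw⟩ := ell_line h (gx_fix hF (e v).1) hev0
      (by rw [← hself, hP2 v hvP, map_zero])
    have hcnt := gx_half h hl hf1 (hf4 u w hl)
    have hset : {L | L ∈ S ∧ P ≤ L} =
        ((((gx_R q u w).filter (fun x => f x = 1)).image GG : Finset _) :
          Set (Submodule F (Fin 4 → F))) := by
      ext L
      rw [Set.mem_ofPred_eq, hle, Finset.coe_image, Set.mem_image]
      constructor
      · rintro ⟨⟨x, hx0, hxQ, hfx, rfl⟩, hvx⟩
        rw [hmem, gx_mem_G] at hvx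
        obtain ⟨a, d, ha, hd, hx⟩ := (huw x).1 hvx
        obtain ⟨r, hr, t, ht0, ht, hrt⟩ := gx_R_surj h hl ha hd (by rw [← hx]; exact hx0)
        refine ⟨r, ?_, ?_⟩
        · rw [Finset.mem_coe, Finset.mem_filter]
          refine ⟨hr, ?_⟩
          rw [← hf2 t r ht0 ht, ← hrt, ← hx]
          exact hfx
        · show (gx_G F h hF r).comap _ = (gx_G F h hF x).comap _
          rw [hx, hrt, gx_G_smul h hF ht ht0]
      · rintro ⟨r, hr, rfl⟩
        rw [Finset.mem_coe, Finset.mem_filter] at hr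
        obtain ⟨a, d, ha, hd, hx, -⟩ := gx_mem_R h hr.1
        exact ⟨⟨r, gx_R_ne h hl hr.1, gx_R_Q h hl hr.1, hr.2, rfl⟩,
          (huw r).2 ⟨a, d, ha, hd, hx⟩⟩
    rw [hset, Set.ncard_coe_finset, Finset.card_image_of_injOn, hcnt]
    intro r hr r' hr' hrr
    rw [Finset.mem_coe, Finset.mem_filter] at hr hr'
    obtain ⟨t, ht, htr⟩ := gx_G_inj h hF (gx_R_ne h hl hr.1) (gx_R_Q h hl hr.1)
      (gx_R_ne h hl hr'.1) (gx_R_Q h hl hr'.1) (hGGinj _ _ hrr)
    exact (gx_R_inj h hl hr.1 hr'.1 ht htr).symm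

end main

end Pool.Agent.KS6_36.HemiGroup
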