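import Mathlib
import Pool.Agent.KS6_36.HemiGroup.Main

set_option autoImplicit false
set_option linter.unusedSectionVars false

namespace Pool.Agent.KS6_36.HemiGroup

open Finset Classical Pool.Agent.TH501.Hemi

section main

variable {F K : Type} [Field F] [Fintype F] [Field K] [Fintype K] [Algebra F K] {q : ℕ}
variable (p s : ℕ) [Fact p.Prime] [CharP F p] [CharP K p]

lemma unit_pow {u : Kˣ} (hu : u ^ (q ^ 2 - q + 1) = 1) : (u : K) ^ (q ^ 2 - q + 1) = 1 := by
  rw [← Units.val_pow_eq_pow_val, hu, Units.val_one]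

lemma semi (h : Std K q) (e : (Fin 4 → F) ≃ₗ[F] F × K)
    (hform : ∀ v w : Fin 4 → F, algebraMap F K (∑ i, v i * w i ^ q) =
      algebraMap F K (e v).1 * (algebraMap F K (e w).1) ^ q + T3 q ((e v).2 * (e w).2 ^ q ^ 3))
    {u : Kˣ} {k : ℕ} (hu : u ^ (q ^ 2 - q + 1) = 1) :
    IsSemiIsometry q (E p s e u k) (iterateFrobeniusEquiv F p (s * k)) := by
  refine ⟨fun x y => ?_, fun a x => ?_, fun x y => ?_⟩
  · apply e.injective
    rw [E_apply, map_add, map_add, E_apply, E_apply]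
    ext
    · show ((e x).1 + (e y).1) ^ p ^ (s * k) = _
      rw [add_pow_char_pow]
      rfl
    · show (u : K) * ((e x).2 + (e y).2) ^ p ^ (s * k) = _
      rw [add_pow_char_pow, mul_add]
      rfl
  · apply e.injective
    rw [E_apply, map_smul, map_smul, E_apply]
    ext
    · show (a * (e x).1) ^ p ^ (s * k) = a ^ p ^ (s * k) * (e x).1 ^ p ^ (s * k)
      rw [mul_pow]
    · show (u : K) * (a • (e x).2) ^ p ^ (s * k) =
        (a ^ p ^ (s * k)) • ((u : K) * (e x).2 ^ p ^ (s * k))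
      rw [Algebra.smul_def, Algebra.smul_def, mul_pow, map_pow]
      ring
  · apply (algebraMap F K).injective
    show _ = algebraMap F K ((∑ i, x i * y i ^ q) ^ p ^ (s * k))
    rw [hform, map_pow, hform, E_apply, E_apply]
    show algebraMap F K ((e x).1 ^ p ^ (s * k)) * algebraMap F K ((e y).1 ^ p ^ (s * k)) ^ q +
      T3 q (((u : K) * (e x).2 ^ p ^ (s * k)) * ((u : K) * (e y).2 ^ p ^ (s * k)) ^ q ^ 3) = _
    have h1 : ((u : K) * (e x).2 ^ p ^ (s * k)) * ((u : K) * (e y).2 ^ p ^ (s * k)) ^ q ^ 3 =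
        ((e x).2 * (e y).2 ^ q ^ 3) ^ p ^ (s * k) := by
      have k3 := gx_c3 h (unit_pow hu)
      have k6 : (u : K) ^ q ^ 3 * u = 1 := by rw [← pow_succ, k3]
      rw [mul_pow, mul_pow, ← pow_mul, ← pow_mul, mul_comm (q ^ 3) (p ^ (s * k))]
      linear_combination ((e x).2 ^ p ^ (s * k) * (e y).2 ^ (p ^ (s * k) * q ^ 3)) * k6
    have h2 : ∀ z : K, T3 q (z ^ p ^ (s * k)) = (T3 q z) ^ p ^ (s * k) := by
      intro z
      exact (T3_map (q := q) (iterateFrobeniusEquiv K p (s * k)) z).symm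
    rw [h1, h2, add_pow_char_pow, mul_pow, map_pow, map_pow, ← pow_mul, ← pow_mul,
      mul_comm q (p ^ (s * k))]

lemma frob_G (h : Std K q) (hF : Fintype.card F = q ^ 2) (x : K) (v : F × K) (j : ℕ) :
    (v.1 ^ p ^ j, v.2 ^ p ^ j) ∈ gx_G F h hF (x ^ p ^ j) ↔ v ∈ gx_G F h hF x := by
  have hφ : ∀ z : K, z ^ p ^ j = iterateFrobeniusEquiv K p j z := fun z => rfl
  rw [gx_mem_G, gx_mem_G]
  simp only [map_pow]
  simp only [hφ, ← map_pow, ← map_mul, ← map_sub, ← T3_map]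
  rw [(iterateFrobeniusEquiv K p j).injective.eq_iff, map_eq_zero_iff _
    (iterateFrobeniusEquiv K p j).injective]

lemma maps (h : Std K q) (hF : Fintype.card F = q ^ 2) (e : (Fin 4 → F) ≃ₗ[F] F × K)
    (f : K → ℤ) (th : K) (hth : ∀ k, th ^ p ^ (s * k) = th)
    (hf3 : ∀ c x : K, c ^ (q ^ 2 - q + 1) = 1 → f (c * x) = f x)
    (hf5 : ∀ φ : K ≃+* K, φ th = th → ∀ x, f (φ x) = f x)
    {u : Kˣ} {k : ℕ} (hu : u ^ (q ^ 2 - q + 1) = 1) (L : Submodule F (Fin 4 → F))
    (hL : L ∈ SS h hF e f) :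
    ∃ L' ∈ SS h hF e f, (L' : Set (Fin 4 → F)) = ⇑(E p s e u k) '' (L : Set (Fin 4 → F)) := by
  obtain ⟨x, hx0, hxQ, hfx, rfl⟩ := hL
  have hu' := unit_pow hu
  have h1 : f (u * x ^ p ^ (s * k)) = 1 := by
    rw [hf3 _ _ hu', ← hfx]
    exact hf5 (iterateFrobeniusEquiv K p (s * k)) (hth k) x
  have h2 : Qf q (u * x ^ p ^ (s * k)) = 0 := by
    rw [Qf, gx_act_Q h hu']
    have h3 : x ^ p ^ (s * k) * (x ^ p ^ (s * k)) ^ q ^ 3 = (x * x ^ q ^ 3) ^ p ^ (s * k) := by
      rw [mul_pow, ← pow_mul, ← pow_mul, mul_comm (q ^ 3)]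
    rw [h3]
    have h4 : T3 q ((x * x ^ q ^ 3) ^ p ^ (s * k)) = (T3 q (x * x ^ q ^ 3)) ^ p ^ (s * k) :=
      (T3_map (q := q) (iterateFrobeniusEquiv K p (s * k)) _).symm
    rw [h4]
    have h5 : T3 q (x * x ^ q ^ 3) = 0 := hxQ
    rw [h5, zero_pow]
    exact pow_ne_zero _ (Fact.out : p.Prime).ne_zero
  refine ⟨GG h hF e (u * x ^ p ^ (s * k)), ⟨u * x ^ p ^ (s * k), ?_, h2, h1, rfl⟩, ?_⟩
  · exact mul_ne_zero (Units.ne_zero u) (pow_ne_zero _ hx0)
  · ext v
    have key : ∀ w, E p s e u k w ∈ GG h hF e (u * x ^ p ^ (s * k)) ↔ w ∈ GG h hF e x := by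
      intro w
      show e (E p s e u k w) ∈ gx_G F h hF (u * x ^ p ^ (s * k)) ↔ e w ∈ gx_G F h hF x
      rw [E_apply, ← frob_G p h hF x (e w) (s * k)]
      exact gx_act_G h hF hu' (x ^ p ^ (s * k)) ((e w).1 ^ p ^ (s * k), (e w).2 ^ p ^ (s * k))
    constructor
    · intro hv
      refine ⟨(E p s e u k).symm v, ?_, Equiv.apply_symm_apply _ _⟩
      have h3 := (key ((E p s e u k).symm v)).1
      rw [Equiv.apply_symm_apply] at h3
      exact h3 hv
    · rintro ⟨w, hw, rfl⟩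
      exact (key w).2 hw

end main

theorem th_fix {K : Type} [Field K] {p : ℕ} [Fact p.Prime] [CharP K p] {th : K}
    (hth : th ^ 2 = 3) (k : ℕ) : th ^ p ^ ((if p = 3 then 1 else 2) * k) = th := by
  split_ifs with hp
  · subst hp
    have h3 : (3 : K) = 0 := by
      have := CharP.cast_eq_zero K 3
      exact_mod_cast this
    rw [h3] at hth
    have h0 : th = 0 := by simpa using hth
    rw [h0, zero_pow]
    exact pow_ne_zero _ (by norm_num)
  · have h1 : th ^ p = th ∨ th ^ p = -th := by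
      have h2 : (th ^ p) ^ 2 = th ^ 2 := by
        rw [← pow_mul, mul_comm, pow_mul, hth]
        have := map_ofNat (frobenius K p) 3
        rw [frobenius_def] at this
        exact this
      exact sq_eq_sq_iff_eq_or_eq_neg.1 h2
    have h2 : th ^ p ^ 2 = th := by
      rw [pow_two, pow_mul]
      rcases h1 with h1 | h1
      · rw [h1, h1]
      · have h3 : (-th) ^ p = - (th ^ p) := by
          have := map_neg (frobenius K p) th
          simpa only [frobenius_def] using this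
        rw [h1, h3, h1, neg_neg]
    rw [pow_mul]
    induction k with
    | zero => simp
    | succ k ih => rw [pow_succ, pow_mul, ih, h2]

/-- The main theorem, over a given cubic extension. -/
theorem main_aux (F : Type) [Field F] [Fintype F] (K : Type) [Field K] [Fintype K] [Algebra F K]
    (p n q : ℕ) [Fact p.Prime] [CharP F p] [CharP K p] (hq : q = p ^ n)
    (hF : Fintype.card F = q ^ 2) (hstd : Std K q) :
    ∃ (S : Set (Submodule F (Fin 4 → F))) (G : Subgroup (Equiv.Perm (Fin 4 → F)))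
      (c h : Equiv.Perm (Fin 4 → F)),
      IsHemisystem q S ∧
      (∀ g ∈ G, ∃ τ : F ≃+* F, IsSemiIsometry q g τ) ∧
      (∀ g ∈ G, ∀ L ∈ S, ∃ L' ∈ S, (L' : Set (Fin 4 → F)) = ⇑g '' (L : Set (Fin 4 → F))) ∧
      (∀ g ∈ G, (∃ a : F, ∀ v, g v = a • v) → g = 1) ∧
      Nat.card G = (q ^ 2 - q + 1) * (if p = 3 then 6 * n else 3 * n) ∧
      c ∈ G ∧ h ∈ G ∧ IsSemiIsometry q c (RingEquiv.refl F) ∧
      IsSemiIsometry q h (RingEquiv.refl F) ∧
      orderOf c = q ^ 2 - q + 1 ∧ orderOf h = 3 ∧ h * c * h⁻¹ = c ^ (q ^ 2) := by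
  have hq5 := gx_q hstd
  have hp1 : 1 < p := (Fact.out : p.Prime).one_lt
  have hn : 0 < n := by
    rcases Nat.eq_zero_or_pos n with h | h
    · rw [h, pow_zero] at hq; omega
    · exact h
  obtain ⟨s, hs⟩ : ∃ s, s = if p = 3 then 1 else 2 := ⟨_, rfl⟩
  obtain ⟨m, hm⟩ : ∃ m, m = if p = 3 then 6 * n else 3 * n := ⟨_, rfl⟩
  obtain ⟨kh, hkh⟩ : ∃ kh, kh = if p = 3 then 2 * n else n := ⟨_, rfl⟩
  have hs0 : 0 < s := by rw [hs]; split_ifs <;> norm_num
  have hm0 : 0 < m := by rw [hm]; split_ifs <;> omega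
  have hsm : s * m = 6 * n := by rw [hs, hm]; split_ifs <;> ring
  have hskh : s * kh = 2 * n := by rw [hs, hkh]; split_ifs <;> ring
  have hmkh : m = kh * 3 := by rw [hm, hkh]; split_ifs <;> ring
  have hKc : Fintype.card K = p ^ (s * m) := by
    rw [hstd.card, hq, ← pow_mul, hsm, mul_comm]
  have hFc : ∀ (k : ℕ) (a : F), a ^ p ^ (s * (m * k)) = a := by
    intro k a
    have h1 : p ^ (s * (m * k)) = Fintype.card F ^ (3 * k) := by
      rw [hF, hq, ← pow_mul, ← pow_mul, ← mul_assoc, hsm]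
      congr 1
      ring
    rw [h1]
    exact FiniteField.pow_card_pow _ a
  have hFkh : ∀ a : F, a ^ p ^ (s * kh) = a := by
    intro a
    have h1 : p ^ (s * kh) = Fintype.card F := by
      rw [hF, hq, ← pow_mul, hskh, mul_comm]
    rw [h1]
    exact FiniteField.pow_card a
  have hq2 : p ^ (s * kh) = q ^ 2 := by rw [hskh, hq, ← pow_mul, mul_comm]
  obtain ⟨th, f, hth, hf1, hf2, hf3, hf4, hf5⟩ := core2 hstd
  have hthf : ∀ k, th ^ p ^ (s * k) = th := by
    intro k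
    rw [hs]
    exact th_fix hth k
  obtain ⟨b, hb, hsb⟩ := on_basis hstd
  obtain ⟨c, hc1, hc2⟩ := gx_exists_c hstd
  have hc0 := gx_c_ne hstd hc1
  set e : (Fin 4 → F) ≃ₗ[F] F × K := LinearEquiv.ofBijective (gx_psi F b)
    (gx_psi_bij hstd hF hb hsb) with he
  have hform : ∀ v w : Fin 4 → F, algebraMap F K (∑ i, v i * w i ^ q) =
      algebraMap F K (e v).1 * (algebraMap F K (e w).1) ^ q + T3 q ((e v).2 * (e w).2 ^ q ^ 3) :=
    fun v w => gx_form hstd hF hb v w
  have hself : ∀ v : Fin 4 → F, algebraMap F K (∑ i, v i ^ (q + 1)) =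
      (algebraMap F K (e v).1) ^ (q + 1) + T3 q ((e v).2 * (e v).2 ^ q ^ 3) :=
    fun v => gx_self_form hstd hF hb v
  obtain ⟨N, hN⟩ : ∃ N, N = q ^ 2 - q + 1 := ⟨_, rfl⟩
  have hN0 : 0 < N := by omega
  set ζ : Kˣ := Units.mk0 c hc0 with hζd
  have hζ1 : ζ ^ N = 1 := by
    apply Units.ext
    rw [Units.val_pow_eq_pow_val, hN]
    exact hc1
  have hζ : orderOf ζ = N := by
    rw [orderOf_eq_iff hN0]
    refine ⟨hζ1, fun j hj hj0 hcon => ?_⟩
    have h1 := congrArg (fun u : Kˣ => (u : K)) hcon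
    simp only [Units.val_pow_eq_pow_val, Units.val_one] at h1
    exact hc2 j hj0 (by omega) h1
  refine ⟨SS hstd hF e f, G p s e N hm0 hFc hKc, E p s e ζ 0, E p s e 1 kh,
    hemi_of hstd hF f hf1 hf2 hf4 e hform hself, ?_, ?_, ?_, ?_, ?_, ?_, ?_, ?_, ?_, ?_, ?_⟩
  · rintro g ⟨u, k, hu, rfl⟩
    exact ⟨_, semi p s hstd e hform (by rw [← hN]; exact hu)⟩
  · rintro g ⟨u, k, hu, rfl⟩ L hL
    exact maps p s hstd hF e f th hthf hf3 hf5 (by rw [← hN]; exact hu) L hL
  · rintro g ⟨u, k, hu, rfl⟩ ⟨a, ha⟩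
    have h1 : a = 1 := by
      have h2 := congrArg (fun v => (e v).1) (ha (e.symm (1, 0)))
      simp only [E_apply, map_smul, e.apply_symm_apply, one_pow, Prod.smul_fst, smul_eq_mul,
        mul_one] at h2
      exact h2.symm
    apply Equiv.ext
    intro v
    rw [ha, h1, one_smul]
    rfl
  · rw [← hN, ← hm]
    exact card_G p s e N hN0 hs0 hm0 hFc hKc ζ hζ
  · exact ⟨ζ, 0, hζ1, rfl⟩
  · exact ⟨1, kh, one_pow _, rfl⟩
  · have h1 := semi p s hstd e hform (u := ζ) (k := 0) (by rw [← hN]; exact hζ1)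
    refine ⟨h1.1, fun a x => ?_, fun x y => ?_⟩
    · rw [h1.2.1]
      congr 1
      show a ^ p ^ (s * 0) = a
      simp
    · rw [h1.2.2]
      show (∑ i, x i * y i ^ q) ^ p ^ (s * 0) = _
      simp
  · have h1 := semi p s hstd e hform (u := 1) (k := kh) (one_pow _)
    refine ⟨h1.1, fun a x => ?_, fun x y => ?_⟩
    · rw [h1.2.1]
      congr 1
      exact hFkh a
    · rw [h1.2.2]
      exact hFkh _
  · have h1 : E p s e ζ 0 = EH p s e ζ := rfl
    rw [h1, orderOf_injective (EH p s e) (EH_inj p s e), hζ, hN]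
  · have : Fact (Nat.Prime 3) := ⟨Nat.prime_three⟩
    refine orderOf_eq_prime ?_ ?_
    · rw [pow_succ, pow_two, E_mul, E_mul, ← E_zero_one p s e]
      simp only [one_pow, mul_one]
      have hk3 : kh + kh + kh = m * 1 := by rw [hmkh]; ring
      rw [hk3]
      refine E_congr p s e (fun a => ?_) (fun x => ?_)
      · rw [hFc]
        simp
      · rw [fixK p s hKc]
        simp
    · intro hcon
      rw [← E_zero_one p s e] at hcon
      have h1 := (E_inj_unit p s e hcon).2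
      have h2 : ∀ x : K, x ^ p ^ (s * kh) = x := by
        intro x
        rw [h1 x]
        simp
      have h3 := card_le_of_fix p (K := K) (by
        rw [hskh]; omega : 0 < s * kh) h2
      rw [hstd.card, hq2] at h3
      have h4 : q ^ 2 < q ^ 6 := Nat.pow_lt_pow_right (by omega) (by norm_num)
      omega
  · rw [mul_inv_eq_iff_eq_mul]
    have h1 : (E p s e ζ 0) ^ (q ^ 2) = E p s e (ζ ^ (q ^ 2)) 0 := by
      have h2 : ∀ u : Kˣ, E p s e u 0 = EH p s e u := fun _ => rfl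
      rw [h2, h2, map_pow]
    rw [h1, E_mul, E_mul, hq2]
    congr 1
    · simp
    · simp

/-- The main theorem. -/
theorem main (F : Type) [Field F] [Fintype F] (p n q : ℕ) (hp : p.Prime) (hq : q = p ^ n)
    (hF : Fintype.card F = q ^ 2) (h4 : q % 4 = 1) (h3 : q % 3 = 0 ∨ q % 3 = 2) :
    ∃ (S : Set (Submodule F (Fin 4 → F))) (G : Subgroup (Equiv.Perm (Fin 4 → F)))
      (c h : Equiv.Perm (Fin 4 → F)),
      IsHemisystem q S ∧
      (∀ g ∈ G, ∃ τ : F ≃+* F, IsSemiIsometry q g τ) ∧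
      (∀ g ∈ G, ∀ L ∈ S, ∃ L' ∈ S, (L' : Set (Fin 4 → F)) = ⇑g '' (L : Set (Fin 4 → F))) ∧
      (∀ g ∈ G, (∃ a : F, ∀ v, g v = a • v) → g = 1) ∧
      Nat.card G = (q ^ 2 - q + 1) * (if p = 3 then 6 * n else 3 * n) ∧
      c ∈ G ∧ h ∈ G ∧ IsSemiIsometry q c (RingEquiv.refl F) ∧
      IsSemiIsometry q h (RingEquiv.refl F) ∧
      orderOf c = q ^ 2 - q + 1 ∧ orderOf h = 3 ∧ h * c * h⁻¹ = c ^ (q ^ 2) := by
  have : Fact p.Prime := ⟨hp⟩
  have hFp : Fintype.card F = p ^ (2 * n) := by rw [hF, hq, ← pow_mul, mul_comm]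
  have hcF : CharP F p := charP_of_card_eq_prime_pow hFp
  let _ : Fintype (FiniteField.Extension F p 3) := Fintype.ofFinite _
  have hcard : Fintype.card (FiniteField.Extension F p 3) = q ^ 6 := by
    rw [← Nat.card_eq_fintype_card, FiniteField.natCard_extension, Nat.card_eq_fintype_card, hF]
    ring
  have hcK : CharP (FiniteField.Extension F p 3) p := by
    have h1 : Fintype.card (FiniteField.Extension F p 3) = p ^ (6 * n) := by
      rw [hcard, hq, ← pow_mul, mul_comm]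
    exact charP_of_card_eq_prime_pow h1
  exact main_aux F (FiniteField.Extension F p 3) p n q hq hF ⟨hcard, h4, by omega⟩

end Pool.Agent.KS6_36.HemiGroup
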